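import Pool.Agent.T2h80.L5.Top

set_option autoImplicit false

/-!
# The number of non-trivial 5-torsion classes of imaginary quadratic fields is at least `X ^ (1 - ε)`

For every `ε > 0` and all large `X`,
`∑_{-X < D < 0 fundamental} (|Cl (K_D) [5]| - 1) ≥ X ^ (1 - ε)`.
-/

namespace Pool.Agent.Results.MP_16912e_nt.FiveTorsionLower

open NumberField Finset
open scoped Classical

/-- Let `ε > 0`.  For all large `X`

`X ^ (1 - ε) ≤ ∑_{-X < D < 0 fundamental} (|Cl (K_D) [5]| - 1)`,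

where `K_D` is the quadratic field of discriminant `D`. -/
theorem result (ε : ℝ) (hε : 0 < ε) : ∃ X₀ : ℕ, ∀ X : ℕ, X₀ ≤ X →
    ∀ (K : ℤ → Type) [∀ D, Field (K D)] [∀ D, NumberField (K D)],
    (∀ D : ℤ, D < 0 → ((D % 4 = 1 ∧ D ≠ 1 ∧ Squarefree D) ∨
        (∃ m : ℤ, D = 4 * m ∧ (m % 4 = 2 ∨ m % 4 = 3) ∧ Squarefree m)) →
      Module.finrank ℚ (K D) = 2 ∧ discr (K D) = D) →
    (X : ℝ) ^ (1 - ε) ≤ ∑ D ∈ (Finset.Ioo (-(X : ℤ)) (0 : ℤ)).filter (fun D : ℤ =>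
        (D % 4 = 1 ∧ D ≠ 1 ∧ Squarefree D) ∨
          (∃ m : ℤ, D = 4 * m ∧ (m % 4 = 2 ∨ m % 4 = 3) ∧ Squarefree m)),
      ((Nat.card {c : ClassGroup (𝓞 (K D)) // c ^ 5 = 1} : ℝ) - 1) := by
  obtain ⟨X₀, h⟩ := Pool.Agent.T2h80.L5.top ε hε
  refine ⟨X₀, fun X hX K _ _ hK => ?_⟩
  refine le_trans (h X hX K hK) (le_of_eq ?_)
  refine sum_congr ?_ (fun D _ => rfl)
  ext D
  constructor
  · intro hD
    have hD' := Finset.mem_filter.1 hD
    exact Finset.mem_filter.2 hD'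
  · intro hD
    have hD' := Finset.mem_filter.1 hD
    exact Finset.mem_filter.2 hD'

end Pool.Agent.Results.MP_16912e_nt.FiveTorsionLower
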