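import Pool.Agent.T2h80.R5.Top

set_option autoImplicit false

/-!
# The 5-torsion in the class groups of real quadratic fields is `O (X ^ ε)` on average

For every `ε > 0`, `∑_{0 < D < X fundamental} |Cl (K_D) [5]| = O_ε (X ^ (1 + ε))`.
-/

namespace Pool.Agent.Results.MP_16912e_nt.FiveTorsionReal

open NumberField Finset
open scoped Classical

/-- Let `ε > 0`.  There is a constant `C` such that for all `X ≥ 1`

`∑_{0 < D < X fundamental} |Cl (K_D) [5]| ≤ C X ^ (1 + ε)`,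

where `K_D` is the quadratic field of discriminant `D`. -/
theorem result (ε : ℝ) (hε : 0 < ε) : ∃ C : ℝ, 0 < C ∧ ∀ X : ℕ, 1 ≤ X →
    ∀ (K : ℤ → Type) [∀ D, Field (K D)] [∀ D, NumberField (K D)],
    (∀ D : ℤ, 0 < D → ((D % 4 = 1 ∧ D ≠ 1 ∧ Squarefree D) ∨
        (∃ m : ℤ, D = 4 * m ∧ (m % 4 = 2 ∨ m % 4 = 3) ∧ Squarefree m)) →
      Module.finrank ℚ (K D) = 2 ∧ discr (K D) = D) →
    ∑ D ∈ (Finset.Ioo (0 : ℤ) (X : ℤ)).filter (fun D : ℤ =>
        (D % 4 = 1 ∧ D ≠ 1 ∧ Squarefree D) ∨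
          (∃ m : ℤ, D = 4 * m ∧ (m % 4 = 2 ∨ m % 4 = 3) ∧ Squarefree m)),
      (Nat.card {c : ClassGroup (𝓞 (K D)) // c ^ 5 = 1} : ℝ) ≤ C * (X : ℝ) ^ (1 + ε) := by
  obtain ⟨C, hC, h⟩ := Pool.Agent.T2h80.R5.top ε hε
  refine ⟨C, hC, fun X hX K _ _ hK => ?_⟩
  refine le_trans (le_of_eq ?_) (h X hX K hK)
  refine sum_congr ?_ (fun D _ => rfl)
  ext D
  constructor
  · intro hD
    have hD' := Finset.mem_filter.1 hD
    exact Finset.mem_filter.2 hD'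
  · intro hD
    have hD' := Finset.mem_filter.1 hD
    exact Finset.mem_filter.2 hD'

end Pool.Agent.Results.MP_16912e_nt.FiveTorsionReal
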