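import Pool.Agent.T2h80.CL.Top

set_option autoImplicit false

/-!
# The prime ideals of small norm in the `l`-torsion of the class groups of imaginary quadratic fields

For odd `l ≥ 5` and `1 / l < θ < 1 / (l - 2)` the number of pairs `(D, P)`, where `-X < D < 0` is a
fundamental discriminant and `P` is a prime ideal of prime norm at most `X ^ θ` of the quadratic
field of discriminant `D` such that `P ^ l` is principal, is asymptotic to
`(6 / (π θ)) X ^ (1 / 2 + θ) / log X`.
-/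

namespace Pool.Agent.Results.MP_16912e_nt.SmallPrimeTorsion

open NumberField Finset Filter
open scoped Classical

/-- Let `l ≥ 5` be odd and `1 / l < θ < 1 / (l - 2)`.  For a negative fundamental discriminant `D`
let `K_D` be the quadratic field of discriminant `D`.  Then, as `X → ∞`,

`∑_{-X < D < 0 fundamental} #{P ⊂ 𝓞 (K_D) : N P prime, N P ≤ X ^ θ, P ^ l principal}`
`  ∼ (6 / (π θ)) X ^ (1 / 2 + θ) / log X`. -/
theorem result (l : ℕ) (hl : 5 ≤ l) (hodd : Odd l) (θ : ℝ) (hθ₁ : 1 / (l : ℝ) < θ)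
    (hθ₂ : θ < 1 / ((l : ℝ) - 2))
    (K : ℤ → Type) [∀ D, Field (K D)] [∀ D, NumberField (K D)]
    (hK : ∀ D : ℤ, D < 0 → ((D % 4 = 1 ∧ D ≠ 1 ∧ Squarefree D) ∨
        (∃ m : ℤ, D = 4 * m ∧ (m % 4 = 2 ∨ m % 4 = 3) ∧ Squarefree m)) →
      Module.finrank ℚ (K D) = 2 ∧ discr (K D) = D) :
    Tendsto (fun X : ℕ =>
      (∑ D ∈ (Finset.Ioo (-(X : ℤ)) (0 : ℤ)).filter (fun D : ℤ =>
          (D % 4 = 1 ∧ D ≠ 1 ∧ Squarefree D) ∨
            (∃ m : ℤ, D = 4 * m ∧ (m % 4 = 2 ∨ m % 4 = 3) ∧ Squarefree m)),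
        (Nat.card {P : Ideal (𝓞 (K D)) // (Ideal.absNorm P).Prime ∧
          (Ideal.absNorm P : ℝ) ≤ (X : ℝ) ^ θ ∧ (P ^ l).IsPrincipal} : ℝ)) /
        ((X : ℝ) ^ (1 / 2 + θ) / Real.log X))
      atTop (nhds (6 / (Real.pi * θ))) := by
  have h := Pool.Agent.T2h80.CL.top l hodd hl θ hθ₁ hθ₂ K hK
  refine h.congr' ?_
  filter_upwards [eventually_gt_atTop 0] with X hX
  have hX0 : (0 : ℝ) < X := by exact_mod_cast hX
  congr 1
  · refine sum_congr ?_ ?_
    · ext D
      constructor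
      · intro hD
        have hD' := Finset.mem_filter.1 hD
        exact Finset.mem_filter.2 hD'
      · intro hD
        have hD' := Finset.mem_filter.1 hD
        exact Finset.mem_filter.2 hD'
    intro D _
    congr 1
    apply Nat.card_congr
    apply Equiv.subtypeEquivRight
    intro P
    rw [Nat.le_floor_iff (Real.rpow_nonneg hX0.le θ)]
  · rw [Real.sqrt_eq_rpow, ← Real.rpow_add hX0]

end Pool.Agent.Results.MP_16912e_nt.SmallPrimeTorsion
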